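import Pool.Agent.Helper90.MultiplierTwo

namespace Pool.Agent.Results.MP_b13872_an.Classification

open Pool.Agent.Helper90.Multiplier

/-- Determination of all admissible functions `Ψ`.  First part: with the usual convention
(the zero polynomial counts as having only real zeros) `Ψ` is admissible if and only if on the
closed quadrant it is a monomial `c * x ^ i * y ^ j`.  Second part: if the zero polynomial is
excluded (so that multiplier sequences have no zero terms), `Ψ` is admissible if and only if
on the open quadrant it is such a monomial with `c ≠ 0`. -/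
theorem result :
    (∀ Ψ : ℝ × ℝ → ℝ, Admissible Ψ ↔
      ∃ (c : ℝ) (i j : ℕ), ∀ x y : ℝ, 0 ≤ x → 0 ≤ y → Ψ (x, y) = c * x ^ i * y ^ j) ∧
    (∀ Ψ : ℝ × ℝ → ℝ, StrictAdmissible Ψ ↔
      ∃ (c : ℝ) (i j : ℕ), c ≠ 0 ∧
        ∀ x y : ℝ, 0 < x → 0 < y → Ψ (x, y) = c * x ^ i * y ^ j) :=
  main

end Pool.Agent.Results.MP_b13872_an.Classification
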